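import Pool.Agent.H33.SubBADefs

namespace Pool.Agent.Results.MP_44afb3_an.Q1

open Filter Topology Set Pool.Agent.H33.SubBA TopologicalSpace

abbrev X := ℕ → ℕ

noncomputable abbrev L2 := lp (fun _ : ℕ => ℂ) 2

lemma exU : ∃ U : ℕ → Ultrafilter X, (∀ n O, IsOpen O → Dense O → O ∈ U n) ∧
    ∀ O, IsOpen O → O.Nonempty → ∃ n, O ∈ U n := by
  obtain ⟨W, hW⟩ := (countable_countableBasis X).exists_eq_range (by
    obtain ⟨s, hs, -⟩ := (isBasis_countableBasis X).exists_subset_of_mem_open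
      (mem_univ (0 : X)) isOpen_univ
    exact ⟨s, hs⟩)
  have hm : ∀ n, W n ∈ countableBasis X := fun n => hW ▸ mem_range_self n
  have hne : ∀ n, (residual X ⊓ 𝓟 (W n)).NeBot := fun n => by
    rw [inf_principal_neBot_iff]
    intro s hs
    rw [inter_comm]
    exact (dense_of_mem_residual hs).inter_open_nonempty _ (isOpen_of_mem_countableBasis (hm n))
      (nonempty_of_mem_countableBasis (hm n))
  choose U hU using fun n => @Ultrafilter.exists_le _ _ (hne n)
  refine ⟨U, fun n O h1 h2 => hU n (mem_inf_of_left (residual_of_dense_open h1 h2)),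
    fun O h1 ⟨x, hx⟩ => ?_⟩
  obtain ⟨s, hs, -, h⟩ := (isBasis_countableBasis X).exists_subset_of_mem_open hx h1
  rw [hW] at hs
  obtain ⟨n, rfl⟩ := hs
  exact ⟨n, hU n (mem_inf_of_right (mem_principal.mpr h))⟩

def sp (A : Set ℕ) : Submodule ℂ L2 where
  carrier := {x | ∀ n ∉ A, x n = 0}
  zero_mem' := fun _ _ => rfl
  add_mem' := fun {x y} hx hy n hn => by simp [hx n hn, hy n hn]
  smul_mem' := fun c x hx n hn => by simp [hx n hn]

lemma sp_closed (A : Set ℕ) : IsClosed (sp A : Set L2) := by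
  have : (sp A : Set L2) = ⋂ n ∉ A, {x : L2 | x n = 0} := by
    ext x
    simp [sp]
  rw [this]
  refine isClosed_iInter fun n => isClosed_iInter fun _ => isClosed_eq ?_ continuous_const
  exact (continuous_apply n).comp lp.uniformContinuous_coe.continuous

lemma sp_le {A B : Set ℕ} : sp A ≤ sp B ↔ A ⊆ B := by
  refine ⟨fun h n hn => ?_, fun h x hx n hn => hx n fun h' => hn (h h')⟩
  by_contra hB
  have := h (x := lp.single 2 n (1 : ℂ)) (fun m hm => by
    rw [lp.single_apply, Pi.single_eq_of_ne]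
    rintro rfl
    exact hm hn) n hB
  simp at this

lemma sp_inf (A B : Set ℕ) : sp A ⊓ sp B = sp (A ∩ B) := by
  refine le_antisymm (fun x hx n hn => ?_) (le_inf (sp_le.mpr inter_subset_left)
    (sp_le.mpr inter_subset_right))
  by_cases h : n ∈ A
  · exact hx.2 n fun h' => hn ⟨h, h'⟩
  · exact hx.1 n h

lemma sp_join (A B : Set ℕ) : join (sp A) (sp B) = sp (A ∪ B) := by
  classical
  refine le_antisymm (Submodule.topologicalClosure_minimal _ (sup_le (sp_le.mpr subset_union_left)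
    (sp_le.mpr subset_union_right)) (sp_closed _)) fun x hx => Submodule.le_topologicalClosure _ ?_
  have hm : Memℓp (fun n => if n ∈ A then x n else 0) 2 :=
    Memℓp.mono' (lp.memℓp x) fun n => by split_ifs <;> simp
  let y : L2 := ⟨_, hm⟩
  rw [← add_sub_cancel y x]
  refine Submodule.add_mem_sup (fun n hn => if_neg hn) fun n hn => ?_
  by_cases h : n ∈ A
  · simp [y, h]
  · simp [y, h, hx n (by simp [h, hn])]

lemma sp_empty : sp ∅ = ⊥ := by
  rw [eq_bot_iff]
  intro x hx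
  exact lp.ext (funext fun n => hx n (notMem_empty n))

lemma sp_univ : sp univ = ⊤ := eq_top_iff.mpr fun _ _ n hn => (hn trivial).elim

section
variable (U : ℕ → Ultrafilter X)

def ps (O : Set X) : Submodule ℂ L2 := sp {n | O ∈ U n}

def EE : Set (Submodule ℂ L2) := {M | ∃ O, IsOpen O ∧ ps U O = M}

lemma ps_inf (O P : Set X) : ps U O ⊓ ps U P = ps U (O ∩ P) := by
  rw [ps, ps, sp_inf]
  congr 1
  ext n
  exact inter_mem_iff.symm

lemma ps_join (O P : Set X) : join (ps U O) (ps U P) = ps U (O ∪ P) := by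
  rw [ps, ps, sp_join]
  congr 1
  ext n
  exact Ultrafilter.union_mem_iff.symm

lemma ps_empty : ps U ∅ = ⊥ := by
  rw [← sp_empty, ps]
  congr 1
  ext n
  simp

variable {U} (h1 : ∀ n O, IsOpen O → Dense O → O ∈ U n)
  (h2 : ∀ O, IsOpen O → O.Nonempty → ∃ n, O ∈ U n)
include h1

lemma ps_dense {O : Set X} (ho : IsOpen O) (hd : Dense O) : ps U O = ⊤ := by
  rw [← sp_univ, ps]
  congr 1
  exact eq_univ_of_forall fun n => h1 n O ho hd

lemma dn (O : Set X) : Dense (O ∪ (closure O)ᶜ) := by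
  intro x
  rw [closure_union]
  by_cases h : x ∈ closure O
  · exact Or.inl h
  · exact Or.inr (subset_closure h)

lemma ba : IsBA (EE U) where
  closed := by
    rintro _ ⟨O, -, rfl⟩
    exact sp_closed _
  bot := ⟨∅, isOpen_empty, ps_empty U⟩
  top := ⟨univ, isOpen_univ, ps_dense h1 isOpen_univ dense_univ⟩
  inf := by
    rintro _ ⟨O, ho, rfl⟩ _ ⟨P, hp, rfl⟩
    exact ⟨_, ho.inter hp, (ps_inf U O P).symm⟩
  sup := by
    rintro _ ⟨O, ho, rfl⟩ _ ⟨P, hp, rfl⟩
    exact ⟨_, ho.union hp, (ps_join U O P).symm⟩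
  distrib := by
    rintro _ ⟨O, ho, rfl⟩ _ ⟨P, hp, rfl⟩ _ ⟨Q, hq, rfl⟩
    simp only [ps_inf, ps_join, inter_union_distrib_left]
  compl := by
    rintro _ ⟨O, ho, rfl⟩
    refine ⟨_, ⟨(closure O)ᶜ, isClosed_closure.isOpen_compl, rfl⟩, ?_, ?_⟩
    · rw [ps_inf, ← ps_empty U]
      congr 1
      exact eq_empty_of_forall_notMem fun x hx => hx.2 (subset_closure hx.1)
    · rw [ps_join, ps_dense h1 (ho.union isClosed_closure.isOpen_compl) (dn h1 O)]

include h2

lemma ps_le {O P : Set X} (ho : IsOpen O) (hp : IsOpen P) : ps U O ≤ ps U P ↔ O ⊆ closure P := by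
  rw [ps, ps, sp_le]
  constructor
  · intro h x hx
    by_contra hn
    obtain ⟨n, hn⟩ := h2 _ (ho.inter (isClosed_closure (s := P)).isOpen_compl) ⟨x, hx, hn⟩
    have := inter_mem (h (mem_of_superset hn inter_subset_left)) hn
    obtain ⟨y, hy⟩ := Ultrafilter.nonempty_of_mem this
    exact hy.2.2 (subset_closure hy.1)
  · intro h n hn
    filter_upwards [hn, h1 n _ (hp.union isClosed_closure.isOpen_compl) (dn h1 P)] with x a b
    exact b.resolve_right fun c => c (h a)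

lemma cpl : IsComplete (EE U) := by
  intro S hS
  have hS' : ∀ M, M ∈ S → ∃ O, IsOpen O ∧ ps U O = M := fun M hM => hS hM
  choose! O ho hO using hS'
  have hu : IsOpen (⋃ M ∈ S, O M) := isOpen_biUnion fun M hM => ho M hM
  refine ⟨_, ⟨_, hu, rfl⟩, fun N hN => ?_, ?_⟩
  · rw [← hO N hN, ps_le h1 h2 (ho N hN) hu]
    exact (subset_biUnion_of_mem (u := O) hN).trans subset_closure
  · rintro _ ⟨P, hp, rfl⟩ h
    rw [ps_le h1 h2 hu hp]
    refine iUnion₂_subset fun N hN => ?_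
    rw [← ps_le h1 h2 (ho N hN) hp, hO N hN]
    exact h N hN

lemma main {K : Type*} [NormedAddCommGroup K] [InnerProductSpace ℂ K] [CompleteSpace K]
    (F : Set (Submodule ℂ K)) (hF : IsBA F) (hr : F = Lat (Alg F)) : ¬ LatIso (EE U) F := by
  rintro ⟨Φ, hb, hΦ⟩
  have hE := ba h1
  have mE : ∀ {O}, IsOpen O → ps U O ∈ EE U := fun h => ⟨_, h, rfl⟩
  have le : ∀ {O P}, IsOpen O → IsOpen P → (Φ (ps U O) ≤ Φ (ps U P) ↔ O ⊆ closure P) := by
    intro O P ho hp
    rw [← ps_le h1 h2 ho hp, ← inf_eq_left, ← inf_eq_left, ← (hΦ _ (mE ho) _ (mE hp)).1]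
    exact hb.injOn.eq_iff (hE.inf _ (mE ho) _ (mE hp)) (mE ho)
  have sj : ∀ N ∈ F, ∃ O, IsOpen O ∧ Φ (ps U O) = N := fun N hN => by
    obtain ⟨_, ⟨O, ho, rfl⟩, h⟩ := hb.surjOn hN
    exact ⟨O, ho, h⟩
  have cl : ∀ {O}, IsOpen O → IsClosed (Φ (ps U O) : Set K) := fun h =>
    hF.closed _ (hb.mapsTo (mE h))
  have iv : ∀ {O}, IsOpen O → ∀ T ∈ Alg F, ∀ x ∈ Φ (ps U O), T x ∈ Φ (ps U O) :=
    fun h T hT => hT _ (hb.mapsTo (mE h))
  have bt : Φ (ps U ∅) = ⊥ := by
    obtain ⟨O, ho, h⟩ := sj ⊥ hF.bot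
    rw [eq_bot_iff, ← h, le isOpen_empty ho]
    exact empty_subset _
  have ca : ∀ j k : ℕ, IsClopen {y : X | y j ≤ k} := fun j k =>
    (isClopen_discrete (Iic k)).preimage (continuous_apply j)
  have step : ∀ (j : ℕ) (O : Set X) (x : K), IsOpen O → x ∈ Φ (ps U O) → ∃ (k : ℕ) (y : K),
      y ∈ Φ (ps U (O ∩ {y | y j ≤ k})) ∧ dist x y < (1 / 4) * (1 / 2) ^ j := by
    intro j O x ho hx
    have hk : ∀ k, IsOpen (O ∩ {y | y j ≤ k}) := fun k => ho.inter (ca j k).isOpen
    have hd : Directed (· ≤ ·) fun k => Φ (ps U (O ∩ {y | y j ≤ k})) :=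
      Monotone.directed_le fun a b hab => (le (hk a) (hk b)).mpr fun y hy =>
        subset_closure ⟨hy.1, le_trans hy.2 hab⟩
    obtain ⟨P, hp, hP⟩ := sj (⨆ k, Φ (ps U (O ∩ {y | y j ≤ k}))).topologicalClosure (by
      rw [hr]
      refine ⟨Submodule.isClosed_topologicalClosure _, fun T hT y hy => ?_⟩
      refine map_mem_closure T.continuous hy fun z hz => ?_
      obtain ⟨k, hz⟩ := (Submodule.mem_iSup_of_directed _ hd).mp hz
      exact Submodule.mem_iSup_of_mem k (iv (hk k) T hT z hz))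
    have : Φ (ps U O) ≤ Φ (ps U P) := by
      rw [le ho hp]
      intro y hy
      refine (le (hk (y j)) hp).mp ?_ ⟨hy, le_refl (y j)⟩
      rw [hP]
      exact (le_iSup (fun k => Φ (ps U (O ∩ {y | y j ≤ k}))) _).trans
        (Submodule.le_topologicalClosure _)
    have hx' := this hx
    rw [hP] at hx'
    obtain ⟨y, hy, h⟩ := Metric.mem_closure_iff.mp hx' ((1 / 4) * (1 / 2) ^ j) (by positivity)
    obtain ⟨k, hy⟩ := (Submodule.mem_iSup_of_directed _ hd).mp hy
    exact ⟨k, y, hy, h⟩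
  choose! kk yy hy hd using step
  obtain ⟨x0, hx0, hn⟩ : ∃ x ∈ Φ (ps U univ), ‖x‖ = 1 := by
    have : ¬ Φ (ps U univ) ≤ ⊥ := by
      rw [← bt, le isOpen_univ isOpen_empty]
      simp
    obtain ⟨x, hx, h⟩ := SetLike.not_le_iff_exists.mp this
    exact ⟨(‖x‖⁻¹ : ℂ) • x, Submodule.smul_mem _ _ hx, norm_smul_inv_norm h⟩
  let s : ℕ → Set X × K := fun n => Nat.rec (univ, x0)
    (fun j p => (p.1 ∩ {y | y j ≤ kk j p.1 p.2}, yy j p.1 p.2)) n
  have hs : ∀ n, IsOpen (s n).1 ∧ (s n).2 ∈ Φ (ps U (s n).1) := fun n => by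
    induction n with
    | zero => exact ⟨isOpen_univ, hx0⟩
    | succ n ih => exact ⟨ih.1.inter (ca _ _).isOpen, hy n _ _ ih.1 ih.2⟩
  have hg : ∀ n, dist (s n).2 (s (n + 1)).2 ≤ (1 / 4) * (1 / 2) ^ n := fun n =>
    (hd n _ _ (hs n).1 (hs n).2).le
  obtain ⟨x, hx⟩ := cauchySeq_tendsto_of_complete (cauchySeq_of_le_geometric _ _ (by norm_num) hg)
  have hx1 : dist x0 x ≤ _ := dist_le_of_le_geometric_of_tendsto₀ _ _ (by norm_num) hg hx
  have an : Antitone fun n => (s n).1 := antitone_nat_of_succ_le fun n => inter_subset_left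
  obtain ⟨P, hp, hP⟩ := sj (⨅ n, Φ (ps U (s n).1)) (by
    rw [hr]
    refine ⟨?_, fun T hT y hy => ?_⟩
    · rw [Submodule.coe_iInf]
      exact isClosed_iInter fun n => cl (hs n).1
    · rw [Submodule.mem_iInf] at hy ⊢
      exact fun n => iv (hs n).1 T hT y (hy n))
  have hxP : x ∈ Φ (ps U P) := by
    rw [hP, Submodule.mem_iInf]
    refine fun n => (cl (hs n).1).mem_of_tendsto hx ?_
    filter_upwards [eventually_ge_atTop n] with m hm
    exact (le (hs m).1 (hs n).1).mpr ((an hm).trans subset_closure) (hs m).2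
  have hPe : P = ∅ := by
    by_contra hne
    obtain ⟨y, hy⟩ := nonempty_iff_ne_empty.mpr hne
    have hb : ∀ z ∈ P, ∀ j, z j ≤ kk j (s j).1 (s j).2 := fun z hz j => by
      have : P ⊆ closure (s (j + 1)).1 := (le hp (hs (j + 1)).1).mp 
        (hP ▸ iInf_le (fun n => Φ (ps U (s n).1)) (j + 1))
      exact (closure_minimal inter_subset_right (ca _ _).isClosed) (this hz)
    have ht : Tendsto (fun j => Function.update y j (kk j (s j).1 (s j).2 + 1)) atTop (𝓝 y) := by
      refine tendsto_pi_nhds.mpr fun i => tendsto_const_nhds.congr' ?_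
      filter_upwards [eventually_gt_atTop i] with j hj
      rw [Function.update_of_ne hj.ne]
    obtain ⟨j, hj⟩ := (ht.eventually (hp.mem_nhds hy)).exists
    simpa using hb _ hj j
  rw [hPe, bt, Submodule.mem_bot] at hxP
  rw [hxP, dist_zero_right, hn] at hx1
  norm_num at hx1

end

universe u

theorem result : ∃ E : Set (Submodule ℂ (lp (fun _ : ℕ => ℂ) 2)), IsBA E ∧ IsComplete E ∧
    ∀ (K : Type u) [NormedAddCommGroup K] [InnerProductSpace ℂ K] [CompleteSpace K]
      (F : Set (Submodule ℂ K)), IsBA F → F = Lat (Alg F) → ¬ LatIso E F := by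
  obtain ⟨U, h1, h2⟩ := exU
  exact ⟨EE U, ba h1, cpl h1 h2,
    fun K _ _ _ F => main h1 h2 F⟩

end Pool.Agent.Results.MP_44afb3_an.Q1
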